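import Mathlib

/-!
# Project HY (MP_5ac32f_an): hyperinvariant subspaces and integrability of the logarithm of the resolvent

Statements (Props) of the independent parts.  Every helper proves one of them in a file
`Pool/Agent/W<seat>/HY/<PART>.lean` as `theorem main : Pool.Agent.W610.HY.<PART>`.
-/

set_option autoImplicit false

namespace Pool.Agent.W610.HY

open MeasureTheory Set Metric Filter Topology

/-- `log⁺ ‖(z - a)⁻¹‖` as an extended number, infinite on the spectrum -/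
noncomputable def mm {𝒜 : Type} [NormedRing 𝒜] [NormedAlgebra ℂ 𝒜] (a : 𝒜) (z : ℂ) : ENNReal := by
  classical
  exact if z ∈ spectrum ℂ a then ⊤ else ENNReal.ofReal (Real.posLog ‖resolvent a z‖)

/-- the partial products of the outer function -/
noncomputable def hh (p : ℕ → Polynomial ℂ) (n : ℕ) (z : ℂ) : ℂ :=
  Complex.exp (-(∑ k ∈ Finset.range n, (p k).eval z))

/-- `h` (a function of the angle) is a good multiplier for the resolvent of `a` on the circle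
with centre `c` and radius `r` -/
structure Good {𝒜 : Type} [NormedRing 𝒜] [NormedAlgebra ℂ 𝒜] (a : 𝒜) (c : ℂ) (r : ℝ)
    (h : ℝ → ℂ) : Prop where
  pos : 0 < r
  meas : Measurable h
  res : ∀ᵐ θ ∂(volume.restrict (Ioc (0:ℝ) (2 * Real.pi))), circleMap c r θ ∈ resolventSet ℂ a
  le_one : ∀ᵐ θ ∂(volume.restrict (Ioc (0:ℝ) (2 * Real.pi))), ‖h θ‖ ≤ 1
  bound : ∀ᵐ θ ∂(volume.restrict (Ioc (0:ℝ) (2 * Real.pi))),
    ‖h θ‖ * ‖resolvent a (circleMap c r θ)‖ ≤ 1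
  ne : (∫ θ in (0:ℝ)..(2 * Real.pi), h θ) ≠ 0
  van : ∀ w : ℂ, r < ‖w - c‖ →
    (∫ θ in (0:ℝ)..(2 * Real.pi), h θ * (circleMap 0 1 θ / (circleMap c r θ - w))) = 0

/-- the element `(2 π r i)`-times-free Cauchy integral of `h` times the resolvent -/
noncomputable def AA {𝒜 : Type} [NormedRing 𝒜] [NormedAlgebra ℂ 𝒜] (a : 𝒜) (c : ℂ) (r : ℝ)
    (h : ℝ → ℂ) : 𝒜 :=
  ∫ θ in (0:ℝ)..(2 * Real.pi), (h θ * circleMap 0 1 θ) • resolvent a (circleMap c r θ)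

/-- RES: lower bound for the resolvent -/
def RES : Prop :=
  ∀ (𝒜 : Type) [NormedRing 𝒜] [NormedAlgebra ℂ 𝒜] [CompleteSpace 𝒜] (a : 𝒜) (z w : ℂ),
    z ∈ resolventSet ℂ a → w ∈ spectrum ℂ a → 1 ≤ ‖z - w‖ * ‖resolvent a z‖

/-- MCON: `mm a` is continuous on the whole plane -/
def MCON : Prop :=
  ∀ (𝒜 : Type) [NormedRing 𝒜] [NormedAlgebra ℂ 𝒜] [CompleteSpace 𝒜] (a : 𝒜),
    Continuous (mm a)

/-- MEAS: the resolvent is a strongly measurable function -/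
def MEAS : Prop :=
  ∀ (𝒜 : Type) [NormedRing 𝒜] [NormedAlgebra ℂ 𝒜] [CompleteSpace 𝒜] (a : 𝒜),
    StronglyMeasurable (fun z : ℂ => resolvent a z)

/-- POLY: approximation from above of a continuous function on the unit circle by real parts of
polynomials -/
def POLY : Prop :=
  ∀ f : ℂ → ℝ, ContinuousOn f (sphere (0:ℂ) 1) → ∀ ε : ℝ, 0 < ε →
    ∃ p : Polynomial ℂ, (p.eval 0).im = 0 ∧
      ∀ z : ℂ, ‖z‖ = 1 → f z ≤ (p.eval z).re ∧ (p.eval z).re ≤ f z + ε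

/-- MEAN: mean values of entire functions on the unit circle -/
def MEAN : Prop :=
  ∀ F : ℂ → ℂ, Differentiable ℂ F →
    (∫ θ in (0:ℝ)..(2 * Real.pi), F (circleMap 0 1 θ)) = 2 * Real.pi * F 0 ∧
    ∀ w : ℂ, 1 < ‖w‖ → (∫ θ in (0:ℝ)..(2 * Real.pi),
      F (circleMap 0 1 θ) * (circleMap 0 1 θ / (circleMap 0 1 θ - w))) = 0

/-- LTWO: the partial products form a Cauchy sequence in `L²` of the circle -/
def LTWO : Prop :=
  ∀ p : ℕ → Polynomial ℂ, (∀ k, ((p k).eval 0).im = 0) →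
    (∀ k (z : ℂ), ‖z‖ = 1 → 0 ≤ ((p k).eval z).re) → ∀ n m : ℕ, n ≤ m →
    (∫ θ in (0:ℝ)..(2 * Real.pi),
      ‖hh p m (circleMap 0 1 θ) - hh p n (circleMap 0 1 θ)‖ ^ 2)
      ≤ 4 * Real.pi * ∑ k ∈ Finset.Ico n m, ((p k).eval 0).re

/-- LIM: the limit of the partial products on the circle -/
def LIM : Prop :=
  ∀ p : ℕ → Polynomial ℂ, (∀ k, ((p k).eval 0).im = 0) →
    (∀ k (z : ℂ), ‖z‖ = 1 → 0 ≤ ((p k).eval z).re) →
    Summable (fun k => ((p k).eval 0).re) →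
    ∃ h : ℝ → ℂ, Measurable h ∧
      (∀ᵐ θ ∂(volume.restrict (Ioc (0:ℝ) (2 * Real.pi))),
        ∀ n, ‖h θ‖ ≤ ‖hh p n (circleMap 0 1 θ)‖) ∧
      (∫ θ in (0:ℝ)..(2 * Real.pi), h θ) ≠ 0 ∧
      ∀ w : ℂ, 1 < ‖w‖ →
        (∫ θ in (0:ℝ)..(2 * Real.pi), h θ * (circleMap 0 1 θ / (circleMap 0 1 θ - w))) = 0

/-- OUT: outer functions on the unit circle -/
def OUT : Prop :=
  ∀ m : ℂ → ENNReal, ContinuousOn m (sphere (0:ℂ) 1) →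
    (∫⁻ θ in Ioc (0:ℝ) (2 * Real.pi), m (circleMap 0 1 θ)) ≠ ⊤ →
    ∃ h : ℝ → ℂ, Measurable h ∧
      (∀ᵐ θ ∂(volume.restrict (Ioc (0:ℝ) (2 * Real.pi))),
        m (circleMap 0 1 θ) ≠ ⊤ ∧ ‖h θ‖ ≤ Real.exp (-(m (circleMap 0 1 θ)).toReal)) ∧
      (∫ θ in (0:ℝ)..(2 * Real.pi), h θ) ≠ 0 ∧
      ∀ w : ℂ, 1 < ‖w‖ →
        (∫ θ in (0:ℝ)..(2 * Real.pi), h θ * (circleMap 0 1 θ / (circleMap 0 1 θ - w))) = 0

/-- CIRC: an area-integrable function is integrable on some small circle -/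
def CIRC : Prop :=
  ∀ m : ℂ → ENNReal, Measurable m → ∀ (c : ℂ) (ρ : ℝ), 0 < ρ →
    (∫⁻ z in ball c ρ, m z) ≠ ⊤ →
    ∃ r : ℝ, 0 < r ∧ r < ρ ∧ (∫⁻ θ in Ioc (0:ℝ) (2 * Real.pi), m (circleMap c r θ)) ≠ ⊤

/-- GOOD: existence of good multipliers -/
def GOOD : Prop :=
  ∀ (𝒜 : Type) [NormedRing 𝒜] [NormedAlgebra ℂ 𝒜] [CompleteSpace 𝒜] (a : 𝒜) (c : ℂ) (r : ℝ),
    0 < r → (∫⁻ θ in Ioc (0:ℝ) (2 * Real.pi), mm a (circleMap c r θ)) ≠ ⊤ →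
    ∃ h : ℝ → ℂ, Good a c r h

/-- NZ: the integral does not vanish when the centre is in the spectrum -/
def NZ : Prop :=
  ∀ (𝒜 : Type) [NormedRing 𝒜] [NormedAlgebra ℂ 𝒜] [CompleteSpace 𝒜] (a : 𝒜) (c : ℂ) (r : ℝ)
    (h : ℝ → ℂ), Good a c r h → c ∈ spectrum ℂ a → c ∈ closure (resolventSet ℂ a) →
    AA a c r h ≠ 0

/-- AB: the product of the integrals over two circles outside each other vanishes -/
def AB : Prop :=
  ∀ (𝒜 : Type) [NormedRing 𝒜] [NormedAlgebra ℂ 𝒜] [CompleteSpace 𝒜] (a : 𝒜) (c₁ c₂ : ℂ)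
    (r₁ r₂ : ℝ) (h₁ h₂ : ℝ → ℂ), Good a c₁ r₁ h₁ → Good a c₂ r₂ h₂ → r₁ + r₂ < ‖c₁ - c₂‖ →
    AA a c₁ r₁ h₁ * AA a c₂ r₂ h₂ = 0

/-- CM: the integral commutes with everything that commutes with `a` -/
def CM : Prop :=
  ∀ (𝒜 : Type) [NormedRing 𝒜] [NormedAlgebra ℂ 𝒜] [CompleteSpace 𝒜] (a : 𝒜) (c : ℂ) (r : ℝ)
    (h : ℝ → ℂ), Good a c r h → ∀ q : 𝒜, q * a = a * q → q * AA a c r h = AA a c r h * q

/-- TWO: the two-discs theorem in Banach algebras -/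
def TWO : Prop :=
  ∀ (𝒜 : Type) [NormedRing 𝒜] [NormedAlgebra ℂ 𝒜] [CompleteSpace 𝒜] (a : 𝒜) (c₁ c₂ : ℂ)
    (r₁ r₂ : ℝ), 0 < r₁ → 0 < r₂ → r₁ + r₂ < ‖c₁ - c₂‖ →
    c₁ ∈ spectrum ℂ a → c₂ ∈ spectrum ℂ a →
    c₁ ∈ closure (resolventSet ℂ a) → c₂ ∈ closure (resolventSet ℂ a) →
    (∫⁻ θ in Ioc (0:ℝ) (2 * Real.pi), mm a (circleMap c₁ r₁ θ)) ≠ ⊤ →
    (∫⁻ θ in Ioc (0:ℝ) (2 * Real.pi), mm a (circleMap c₂ r₂ θ)) ≠ ⊤ →
    ∃ A B : 𝒜, A ≠ 0 ∧ B ≠ 0 ∧ A * B = 0 ∧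
      (∀ q : 𝒜, q * a = a * q → q * A = A * q) ∧ (∀ q : 𝒜, q * a = a * q → q * B = B * q)

/-- HYPO: the hypotheses of the theorem in terms of `mm` -/
def HYPO : Prop :=
  ∀ (𝒜 : Type) [NormedRing 𝒜] [NormedAlgebra ℂ 𝒜] [CompleteSpace 𝒜] (a : 𝒜) (U : Set ℂ),
    IsOpen U → volume (spectrum ℂ a ∩ U) = 0 →
    IntegrableOn (fun z : ℂ => Real.posLog ‖resolvent a z‖) U →
    (∫⁻ z in U, mm a z) ≠ ⊤

/-- MINK: growth of finite exponential order near a set with small neighbourhoods gives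
integrability -/
def MINK : Prop :=
  ∀ (𝒜 : Type) [NormedRing 𝒜] [NormedAlgebra ℂ 𝒜] [CompleteSpace 𝒜] (a : 𝒜) (U E : Set ℂ)
    (C k ε : ℝ), IsOpen U → Bornology.IsBounded U → IsClosed E → 0 ≤ k → 0 < ε →
    spectrum ℂ a ∩ U ⊆ E →
    (∀ z ∈ U, z ∉ E → ‖resolvent a z‖ ≤ Real.exp (C * infDist z E ^ (-k))) →
    (∀ δ : ℝ, 0 < δ → δ ≤ 1 →
      volume {z : ℂ | z ∈ U ∧ infDist z E ≤ δ} ≤ ENNReal.ofReal (C * δ ^ (k + ε))) →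
    volume (spectrum ℂ a ∩ U) = 0 ∧
      IntegrableOn (fun z : ℂ => Real.posLog ‖resolvent a z‖) U

end Pool.Agent.W610.HY
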