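import Pool.Agent.W610.HY.Lasm

set_option autoImplicit false

namespace Pool.Agent.W610.HY.Cor

open MeasureTheory Set Metric Filter Topology
open Pool.Agent.W610.HY

variable {X : Type} [NormedAddCommGroup X] [NormedSpace ℂ X] [CompleteSpace X]

/-- a point of the spectrum in an open set which the spectrum meets in a null set is a limit of
points of the resolvent set -/
theorem exists_seq (T : X →L[ℂ] X) (U : Set ℂ) (hU : IsOpen U)
    (h0 : volume (spectrum ℂ T ∩ U) = 0) (c : ℂ) (hc : c ∈ U) :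
    ∃ w : ℕ → ℂ, (∀ n, w n ∈ resolventSet ℂ T) ∧ Tendsto w atTop (𝓝 c) := by
  have h1 : c ∈ closure (resolventSet ℂ T) := by
    rw [mem_closure_iff_nhds]
    intro s hs
    by_contra hcon
    have hemp : s ∩ resolventSet ℂ T = ∅ := not_nonempty_iff_eq_empty.mp hcon
    have hsU : s ∩ U ∈ 𝓝 c := inter_mem hs (hU.mem_nhds hc)
    have hsub : s ∩ U ⊆ spectrum ℂ T ∩ U := by
      rintro z ⟨hz1, hz2⟩
      refine ⟨?_, hz2⟩
      intro hz3
      have : z ∈ s ∩ resolventSet ℂ T := ⟨hz1, hz3⟩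
      rw [hemp] at this
      exact this
    have hpos := Measure.measure_pos_of_mem_nhds (volume : Measure ℂ) hsU
    have := measure_mono_null hsub h0
    exact (ne_of_gt hpos) this
  exact mem_closure_iff_seq_limit.mp h1

theorem glob_aux (hRES : RES) (T : X →L[ℂ] X) (c : ℂ) (hcs : c ∈ spectrum ℂ T)
    (w : ℕ → ℂ) (hw : ∀ n, w n ∈ resolventSet ℂ T) (hlim : Tendsto w atTop (𝓝 c)) :
    ¬ ∃ C : ℝ, ∀ n, ‖resolvent T (w n)‖ ≤ C := by
  rintro ⟨C, hC⟩
  have h1 : ∀ n, 1 ≤ ‖w n - c‖ * C := by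
    intro n
    have := hRES (X →L[ℂ] X) T (w n) c (hw n) hcs
    refine this.trans ?_
    exact mul_le_mul_of_nonneg_left (hC n) (norm_nonneg _)
  have h2 : Tendsto (fun n => ‖w n - c‖ * C) atTop (𝓝 0) := by
    have : Tendsto (fun n => ‖w n - c‖) atTop (𝓝 0) := by
      have := (hlim.sub_const c).norm
      simpa using this
    simpa using this.mul_const C
  have h3 := ge_of_tendsto' h2 h1
  linarith

/-- there is a vector with unbounded local resolvent near a given point of the spectrum -/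
theorem exists_vec (hRES : RES) (T : X →L[ℂ] X) (U : Set ℂ) (hU : IsOpen U)
    (h0 : volume (spectrum ℂ T ∩ U) = 0) (c : ℂ) (hc : c ∈ U) (hcs : c ∈ spectrum ℂ T) :
    ∃ x : X, ∀ K δ : ℝ, 0 < δ → ∃ w ∈ resolventSet ℂ T, ‖w - c‖ < δ ∧ K < ‖resolvent T w x‖ := by
  obtain ⟨w, hw, hlim⟩ := exists_seq T U hU h0 c hc
  by_contra hcon
  push Not at hcon
  apply glob_aux hRES T c hcs w hw hlim
  apply banach_steinhaus
  intro x
  obtain ⟨K, δ, hδ, h⟩ := hcon x
  have hev : ∀ᶠ n in atTop, ‖resolvent T (w n) x‖ ≤ K := by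
    have : ∀ᶠ n in atTop, ‖w n - c‖ < δ := by
      have := (Metric.tendsto_nhds.mp hlim) δ hδ
      filter_upwards [this] with n hn
      rwa [dist_eq_norm] at hn
    filter_upwards [this] with n hn
    exact h (w n) (hw n) hn
  have hbd : BddAbove (range fun n => ‖resolvent T (w n) x‖) := by
    apply IsBoundedUnder.bddAbove_range
    exact isBoundedUnder_of_eventually_le hev
  obtain ⟨C, hC⟩ := hbd
  exact ⟨C, fun n => hC (mem_range_self n)⟩

/-- there is a functional with unbounded local resolvent near a given point of the spectrum -/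
theorem exists_fun (hRES : RES) (T : X →L[ℂ] X) (U : Set ℂ) (hU : IsOpen U)
    (h0 : volume (spectrum ℂ T ∩ U) = 0) (c : ℂ) (hc : c ∈ U) (hcs : c ∈ spectrum ℂ T) :
    ∃ y : X →L[ℂ] ℂ, ∀ K δ : ℝ, 0 < δ →
      ∃ w ∈ resolventSet ℂ T, ‖w - c‖ < δ ∧ K < ‖y.comp (resolvent T w)‖ := by
  obtain ⟨w, hw, hlim⟩ := exists_seq T U hU h0 c hc
  by_contra hcon
  push Not at hcon
  apply glob_aux hRES T c hcs w hw hlim
  have hbs : ∃ C : ℝ, ∀ n, ‖(ContinuousLinearMap.compL ℂ X X ℂ).flip (resolvent T (w n))‖ ≤ C := by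
    apply banach_steinhaus
    intro y
    obtain ⟨K, δ, hδ, h⟩ := hcon y
    have hev : ∀ᶠ n in atTop,
        ‖(ContinuousLinearMap.compL ℂ X X ℂ).flip (resolvent T (w n)) y‖ ≤ K := by
      have : ∀ᶠ n in atTop, ‖w n - c‖ < δ := by
        have := (Metric.tendsto_nhds.mp hlim) δ hδ
        filter_upwards [this] with n hn
        rwa [dist_eq_norm] at hn
      filter_upwards [this] with n hn
      exact h (w n) (hw n) hn
    have hbd : BddAbove (range fun n =>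
        ‖(ContinuousLinearMap.compL ℂ X X ℂ).flip (resolvent T (w n)) y‖) := by
      apply IsBoundedUnder.bddAbove_range
      exact isBoundedUnder_of_eventually_le hev
    obtain ⟨C, hC⟩ := hbd
    exact ⟨C, fun n => hC (mem_range_self n)⟩
  obtain ⟨C, hC⟩ := hbs
  have hC0 : 0 ≤ C := (norm_nonneg _).trans (hC 0)
  refine ⟨C, fun n => ?_⟩
  apply ContinuousLinearMap.opNorm_le_bound _ hC0
  intro x
  apply NormedSpace.norm_le_dual_bound ℂ _ (by positivity)
  intro f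
  have h1 : f (resolvent T (w n) x) =
      ((ContinuousLinearMap.compL ℂ X X ℂ).flip (resolvent T (w n)) f) x := rfl
  rw [h1]
  calc ‖((ContinuousLinearMap.compL ℂ X X ℂ).flip (resolvent T (w n)) f) x‖
      ≤ ‖(ContinuousLinearMap.compL ℂ X X ℂ).flip (resolvent T (w n)) f‖ * ‖x‖ :=
        ContinuousLinearMap.le_opNorm _ _
    _ ≤ (‖(ContinuousLinearMap.compL ℂ X X ℂ).flip (resolvent T (w n))‖ * ‖f‖) * ‖x‖ := by
        gcongr
        exact ContinuousLinearMap.le_opNorm _ _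
    _ ≤ (C * ‖f‖) * ‖x‖ := by
        gcongr
        exact hC n
    _ = C * ‖x‖ * ‖f‖ := by ring

/-- integrability passes from the norm of the resolvent to local resolvents -/
theorem integ (hMEAS : MEAS) (T : X →L[ℂ] X) {E : Type} [NormedAddCommGroup E] (F : ℂ → E)
    (hF : StronglyMeasurable F) (a : ℝ) (hle : ∀ z, ‖F z‖ ≤ a * ‖resolvent T z‖)
    (ha : 0 ≤ a) (U : Set ℂ) (hI : IntegrableOn (fun z : ℂ => Real.posLog ‖resolvent T z‖) U)
    (c : ℂ) (ρ : ℝ) (hB : ball c ρ ⊆ U) :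
    IntegrableOn (fun z : ℂ => Real.posLog ‖F z‖) (ball c ρ) := by
  have h1 : IntegrableOn (fun z : ℂ => Real.posLog a + Real.posLog ‖resolvent T z‖) (ball c ρ) := by
    apply Integrable.add
    · exact integrableOn_const (measure_ball_lt_top.ne)
    · exact hI.mono_set hB
  refine Integrable.mono' h1 ?_ ?_
  · exact (Real.continuous_posLog.measurable.comp hF.norm.measurable).aestronglyMeasurable
  · refine ae_of_all _ fun z => ?_
    rw [Real.norm_eq_abs, abs_of_nonneg Real.posLog_nonneg]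
    calc Real.posLog ‖F z‖ ≤ Real.posLog (a * ‖resolvent T z‖) :=
          Real.posLog_le_posLog (norm_nonneg _) (hle z)
      _ ≤ Real.posLog a + Real.posLog ‖resolvent T z‖ := Real.posLog_mul

/-- the global theorem -/
theorem glob (hLOC : LOC) (hRES : RES) (hMEAS : MEAS) (T : X →L[ℂ] X) (U : Set ℂ)
    (hU : IsOpen U) (h2 : (spectrum ℂ T ∩ U).Nontrivial) (h0 : volume (spectrum ℂ T ∩ U) = 0)
    (hI : IntegrableOn (fun z : ℂ => Real.posLog ‖resolvent T z‖) U) :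
    ∃ V : Submodule ℂ X, IsClosed (V : Set X) ∧ V ≠ ⊥ ∧ V ≠ ⊤ ∧
      ∀ Q : X →L[ℂ] X, Q * T = T * Q → ∀ v ∈ V, Q v ∈ V := by
  obtain ⟨c₁, ⟨hs₁, hU₁⟩, c₂, ⟨hs₂, hU₂⟩, hne⟩ := h2
  obtain ⟨x, hx⟩ := exists_vec hRES T U hU h0 c₁ hU₁ hs₁
  obtain ⟨y, hy⟩ := exists_fun hRES T U hU h0 c₂ hU₂ hs₂
  obtain ⟨ρ₁, hρ₁, hB₁⟩ := Metric.isOpen_iff.mp hU c₁ hU₁
  obtain ⟨ρ₂, hρ₂, hB₂⟩ := Metric.isOpen_iff.mp hU c₂ hU₂
  refine hLOC X T x y c₁ c₂ (ball c₁ ρ₁) (ball c₂ ρ₂) hne isOpen_ball isOpen_ball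
    (mem_ball_self hρ₁) (mem_ball_self hρ₂) ?_ ?_ ?_ ?_ hx hy
  · exact measure_mono_null (inter_subset_inter_right _ hB₁) h0
  · exact measure_mono_null (inter_subset_inter_right _ hB₂) h0
  · refine integ hMEAS T (fun z => resolvent T z x) ?_ ‖x‖ ?_ (norm_nonneg _) U hI c₁ ρ₁ hB₁
    · exact (ContinuousLinearMap.apply ℂ X x).continuous.comp_stronglyMeasurable
        (hMEAS (X →L[ℂ] X) T)
    · intro z
      rw [mul_comm]
      exact ContinuousLinearMap.le_opNorm _ _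
  · refine integ hMEAS T (fun z => y.comp (resolvent T z)) ?_ ‖y‖ ?_ (norm_nonneg _) U hI c₂ ρ₂ hB₂
    · exact ((ContinuousLinearMap.compL ℂ X X ℂ) y).continuous.comp_stronglyMeasurable
        (hMEAS (X →L[ℂ] X) T)
    · intro z
      exact ContinuousLinearMap.opNorm_comp_le _ _

/-- growth of finite exponential order near a set with small neighbourhoods -/
theorem mink (hLOC : LOC) (hRES : RES) (hMEAS : MEAS) (hMINK : MINK) (T : X →L[ℂ] X)
    (U E : Set ℂ) (C k ε : ℝ) (hU : IsOpen U) (hb : Bornology.IsBounded U) (hE : IsClosed E)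
    (hk : 0 ≤ k) (hε : 0 < ε) (hs : spectrum ℂ T ∩ U ⊆ E)
    (h2 : (spectrum ℂ T ∩ U).Nontrivial)
    (hR : ∀ z ∈ U, z ∉ E → ‖resolvent T z‖ ≤ Real.exp (C * infDist z E ^ (-k)))
    (hV : ∀ δ : ℝ, 0 < δ → δ ≤ 1 →
      volume {z : ℂ | z ∈ U ∧ infDist z E ≤ δ} ≤ ENNReal.ofReal (C * δ ^ (k + ε))) :
    ∃ V : Submodule ℂ X, IsClosed (V : Set X) ∧ V ≠ ⊥ ∧ V ≠ ⊤ ∧
      ∀ Q : X →L[ℂ] X, Q * T = T * Q → ∀ v ∈ V, Q v ∈ V := by
  obtain ⟨h0, hI⟩ := hMINK (X →L[ℂ] X) T U E C k ε hU hb hE hk hε hs hR hV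
  exact glob hLOC hRES hMEAS T U hU h2 h0 hI

end Pool.Agent.W610.HY.Cor
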