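import Pool.Agent.W610.HY.Cor

set_option autoImplicit false

namespace Pool.Agent.W610.HY.Cor2

open MeasureTheory Set Metric Filter Topology
open Pool.Agent.W610.HY

variable {X : Type} [NormedAddCommGroup X] [NormedSpace ℂ X] [CompleteSpace X]

/-- polynomial growth near a set of upper Minkowski dimension less than two -/
theorem poly (hLOC : LOC) (hRES : RES) (hMEAS : MEAS) (hMINK : MINK) (T : X →L[ℂ] X)
    (U E : Set ℂ) (C s ε : ℝ) (hU : IsOpen U) (hb : Bornology.IsBounded U) (hE : IsClosed E)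
    (hε : 0 < ε) (hs : spectrum ℂ T ∩ U ⊆ E)
    (h2 : (spectrum ℂ T ∩ U).Nontrivial)
    (hR : ∀ z ∈ U, z ∉ E → ‖resolvent T z‖ ≤ C * infDist z E ^ (-s))
    (hV : ∀ δ : ℝ, 0 < δ → δ ≤ 1 →
      volume {z : ℂ | z ∈ U ∧ infDist z E ≤ δ} ≤ ENNReal.ofReal (C * δ ^ ε)) :
    ∃ V : Submodule ℂ X, IsClosed (V : Set X) ∧ V ≠ ⊥ ∧ V ≠ ⊤ ∧
      ∀ Q : X →L[ℂ] X, Q * T = T * Q → ∀ v ∈ V, Q v ∈ V := by
  set k : ℝ := ε / 2 with hk
  have hk0 : 0 < k := by positivity
  set C' : ℝ := max C (|Real.log C| + |s| / k) with hC'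
  set W : Set ℂ := U ∩ {z | infDist z E < 1} with hW
  have hWo : IsOpen W := hU.inter (isOpen_lt (continuous_infDist_pt E) continuous_const)
  have hEne : E.Nonempty := by
    obtain ⟨z, hz⟩ := h2.nonempty
    exact ⟨z, hs hz⟩
  have hsub : spectrum ℂ T ∩ U ⊆ spectrum ℂ T ∩ W := by
    rintro z ⟨h3, h4⟩
    refine ⟨h3, h4, ?_⟩
    have : infDist z E = 0 := infDist_zero_of_mem (hs ⟨h3, h4⟩)
    simp [this]
  refine Cor.mink hLOC hRES hMEAS hMINK T W E C' k k hWo (hb.subset inter_subset_left) hE hk0.le hk0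
    ?_ (h2.mono hsub) ?_ ?_
  · rintro z ⟨h3, h4, _⟩
    exact hs ⟨h3, h4⟩
  · rintro z ⟨hzU, hz1⟩ hzE
    have hd : 0 < infDist z E := by
      rcases (infDist_nonneg (x := z) (s := E)).lt_or_eq with h | h
      · exact h
      · exact absurd ((hE.mem_iff_infDist_zero hEne).mpr h.symm) hzE
    have hd1 : infDist z E < 1 := hz1
    refine (hR z hzU hzE).trans ?_
    rcases le_or_gt C 0 with hC | hC
    · have : C * infDist z E ^ (-s) ≤ 0 :=
        mul_nonpos_of_nonpos_of_nonneg hC (Real.rpow_nonneg hd.le _)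
      exact this.trans (Real.exp_pos _).le
    · have hpos : 0 < C * infDist z E ^ (-s) := mul_pos hC (Real.rpow_pos_of_pos hd _)
      rw [← Real.exp_log hpos]
      apply Real.exp_le_exp.mpr
      rw [Real.log_mul hC.ne' (Real.rpow_pos_of_pos hd _).ne', Real.log_rpow hd]
      have hone : 1 ≤ infDist z E ^ (-k) := by
        apply Real.one_le_rpow_of_pos_of_le_one_of_nonpos hd hd1.le
        linarith
      have hlog : -Real.log (infDist z E) ≤ infDist z E ^ (-k) / k := by
        have := Real.log_le_rpow_div (x := (infDist z E)⁻¹) (inv_nonneg.mpr hd.le) hk0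
        rw [Real.log_inv, Real.inv_rpow hd.le, ← Real.rpow_neg hd.le] at this
        exact this
      have hlogn : 0 ≤ -Real.log (infDist z E) := by
        have := Real.log_nonpos hd.le hd1.le
        linarith
      have h5 : -s * Real.log (infDist z E) ≤ |s| * (infDist z E ^ (-k) / k) := by
        calc -s * Real.log (infDist z E) = s * (-Real.log (infDist z E)) := by ring
          _ ≤ |s| * (-Real.log (infDist z E)) :=
            mul_le_mul_of_nonneg_right (le_abs_self s) hlogn
          _ ≤ |s| * (infDist z E ^ (-k) / k) :=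
            mul_le_mul_of_nonneg_left hlog (abs_nonneg s)
      have h6 : Real.log C ≤ |Real.log C| * infDist z E ^ (-k) := by
        calc Real.log C ≤ |Real.log C| := le_abs_self _
          _ = |Real.log C| * 1 := (mul_one _).symm
          _ ≤ |Real.log C| * infDist z E ^ (-k) :=
            mul_le_mul_of_nonneg_left hone (abs_nonneg _)
      have h7 : (|Real.log C| + |s| / k) * infDist z E ^ (-k) ≤ C' * infDist z E ^ (-k) :=
        mul_le_mul_of_nonneg_right (le_max_right _ _) (Real.rpow_nonneg hd.le _)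
      have h8 : |s| * (infDist z E ^ (-k) / k) = |s| / k * infDist z E ^ (-k) := by ring
      have h9 : (|Real.log C| + |s| / k) * infDist z E ^ (-k) =
        |Real.log C| * infDist z E ^ (-k) + |s| / k * infDist z E ^ (-k) := by ring
      linarith
  · intro δ hδ0 hδ1
    have h3 : {z : ℂ | z ∈ W ∧ infDist z E ≤ δ} ⊆ {z : ℂ | z ∈ U ∧ infDist z E ≤ δ} := by
      rintro z ⟨h4, h5⟩
      exact ⟨h4.1, h5⟩
    refine (measure_mono h3).trans ((hV δ hδ0 hδ1).trans ?_)
    apply ENNReal.ofReal_le_ofReal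
    have : k + k = ε := by rw [hk]; ring
    rw [this]
    exact mul_le_mul_of_nonneg_right (le_max_left _ _) (Real.rpow_nonneg hδ0.le _)

end Pool.Agent.W610.HY.Cor2
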