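import Pool.Agent.W610.HY.Two
import Pool.Agent.W610.HY.Cor2
import Pool.Agent.W610.HY.Out2
import Pool.Agent.W389.HY.ABM
import Pool.Agent.W763.HY.LIM2
import Pool.Agent.W721.HY.MEAN
import Pool.Agent.W53.HY.POLY
import Pool.Agent.W264.HY.LTWO
import Pool.Agent.W15.HY.CIRC
import Pool.Agent.W19.HY.RES
import Pool.Agent.W427.HY.MINK
import Pool.Agent.W98.HY.ABV
import Pool.Agent.W214.HY.GOOD2
import Pool.Agent.W378.HY.MEANI
import Pool.Agent.W366.HY.HARN

set_option autoImplicit false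

namespace Pool.Agent.W610.HY.Fin

open MeasureTheory Set Metric Filter Topology
open Pool.Agent.W610.HY

theorem hMEAS : MEAS := fun 𝒜 _ _ _ a => Pool.Agent.W98.HY.ABV.meas a

theorem hOUT2 : OUT2 :=
  Pool.Agent.W610.HY.Out2.main Pool.Agent.W53.HY.POLY.main Pool.Agent.W721.HY.MEAN.main
    (Pool.Agent.W763.HY.LIM2.main Pool.Agent.W721.HY.MEAN.main Pool.Agent.W378.HY.MEANI.main
      Pool.Agent.W366.HY.HARN.main Pool.Agent.W264.HY.LTWO.main)

theorem hGOOD2 : GOOD2 := Pool.Agent.W214.HY.GOOD2.main hOUT2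

end Pool.Agent.W610.HY.Fin
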