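import Pool.Agent.W610.HY.Stm2

set_option autoImplicit false

namespace Pool.Agent.W610.HY.Lasm

open MeasureTheory Set Metric Filter Topology
open Pool.Agent.W610.HY

variable {X : Type} [NormedAddCommGroup X] [NormedSpace ℂ X] [CompleteSpace X]

/-- the resolvent identity -/
theorem res_id (T : X →L[ℂ] X) {z w : ℂ} (hz : z ∈ resolventSet ℂ T) (hw : w ∈ resolventSet ℂ T) :
    resolvent T w - resolvent T z = (z - w) • (resolvent T w * resolvent T z) := by
  obtain ⟨u, hu⟩ := hz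
  obtain ⟨v, hv⟩ := hw
  have e1 : resolvent T z = (↑u⁻¹ : X →L[ℂ] X) := by
    unfold resolvent; rw [← hu, Ring.inverse_unit]
  have e2 : resolvent T w = (↑v⁻¹ : X →L[ℂ] X) := by
    unfold resolvent; rw [← hv, Ring.inverse_unit]
  rw [e1, e2]
  have h3 : (z - w) • ((↑v⁻¹ : X →L[ℂ] X) * (↑u⁻¹ : X →L[ℂ] X)) =
      (↑v⁻¹ : X →L[ℂ] X) * ((u : X →L[ℂ] X) - (v : X →L[ℂ] X)) * (↑u⁻¹ : X →L[ℂ] X) := by
    have : (u : X →L[ℂ] X) - (v : X →L[ℂ] X) = (z - w) • (1 : X →L[ℂ] X) := by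
      rw [hu, hv, Algebra.algebraMap_eq_smul_one, Algebra.algebraMap_eq_smul_one, sub_smul]
      abel
    rw [this]
    simp
  rw [h3, mul_sub, sub_mul]
  simp [mul_assoc]

theorem cont_res (T : X →L[ℂ] X) : ContinuousOn (fun z : ℂ => resolvent T z) (resolventSet ℂ T) := by
  intro z hz
  exact (spectrum.hasDerivAt_resolvent hz).continuousAt.continuousWithinAt

theorem compl_spec (T : X →L[ℂ] X) (U : Set ℂ) : U \ resolventSet ℂ T = spectrum ℂ T ∩ U := by
  ext z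
  constructor
  · rintro ⟨h1, h2⟩
    exact ⟨h2, h1⟩
  · rintro ⟨h1, h2⟩
    exact ⟨h2, h1⟩

/-- the final step: the closed span of the orbit of a vector under the commutant -/
theorem fin (T : X →L[ℂ] X) (A : X) (B : X →L[ℂ] ℂ) (hA : A ≠ 0) (hB : B ≠ 0)
    (h : ∀ S : X →L[ℂ] X, S * T = T * S → B (S A) = 0) :
    ∃ V : Submodule ℂ X, IsClosed (V : Set X) ∧ V ≠ ⊥ ∧ V ≠ ⊤ ∧
      ∀ Q : X →L[ℂ] X, Q * T = T * Q → ∀ v ∈ V, Q v ∈ V := by
  let W : Submodule ℂ X := Submodule.span ℂ {v | ∃ S : X →L[ℂ] X, S * T = T * S ∧ v = S A}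
  have hle : W.topologicalClosure ≤ LinearMap.ker (B : X →ₗ[ℂ] ℂ) := by
    apply Submodule.topologicalClosure_minimal
    · apply Submodule.span_le.mpr
      rintro v ⟨S, hS, rfl⟩
      exact h S hS
    · exact B.isClosed_ker
  refine ⟨W.topologicalClosure, W.isClosed_topologicalClosure, ?_, ?_, ?_⟩
  · intro hbot
    apply hA
    have h1 : A ∈ W.topologicalClosure := by
      apply W.le_topologicalClosure
      apply Submodule.subset_span
      exact ⟨1, by simp, by simp⟩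
    rw [hbot] at h1
    exact (Submodule.mem_bot ℂ).mp h1
  · intro htop
    apply hB
    ext v
    have h1 : v ∈ W.topologicalClosure := by rw [htop]; trivial
    have := hle h1
    simpa using this
  · intro Q hQ v hv
    have h1 : W ≤ W.comap (Q : X →ₗ[ℂ] X) := by
      apply Submodule.span_le.mpr
      rintro v ⟨S, hS, rfl⟩
      apply Submodule.subset_span
      refine ⟨Q * S, ?_, rfl⟩
      rw [mul_assoc, hS, ← mul_assoc, hQ, mul_assoc]
    have h2 : W.topologicalClosure ≤ (W.topologicalClosure).comap (Q : X →ₗ[ℂ] X) := by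
      apply Submodule.topologicalClosure_minimal
      · intro u hu
        exact W.le_topologicalClosure (h1 hu)
      · exact IsClosed.preimage Q.continuous W.isClosed_topologicalClosure
    exact h2 hv

theorem main : LASM := by
  intro hGOODV hHYPV hMVM hCIRC hNZV hABV
  intro X _ _ _ T x y c₁ c₂ U₁ U₂ hne hU₁ hU₂ hc₁ hc₂ h01 h02 hI1 hI2 hb1 hb2
  have hP : IsOpen (resolventSet ℂ T) := spectrum.isOpen_resolventSet T
  set F₁ : ℂ → X := fun z => resolvent T z x with hF₁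
  set F₂ : ℂ → (X →L[ℂ] ℂ) := fun z => y.comp (resolvent T z) with hF₂
  have hcF₁ : ContinuousOn F₁ (resolventSet ℂ T) := by
    exact (cont_res T).clm_apply continuousOn_const
  have hcF₂ : ContinuousOn F₂ (resolventSet ℂ T) := by
    exact continuousOn_const.clm_comp (cont_res T)
  have hd : 0 < ‖c₁ - c₂‖ := norm_pos_iff.mpr (sub_ne_zero.mpr hne)
  obtain ⟨ρ₁, hρ₁, hB₁⟩ := Metric.isOpen_iff.mp hU₁ c₁ hc₁
  obtain ⟨ρ₂, hρ₂, hB₂⟩ := Metric.isOpen_iff.mp hU₂ c₂ hc₂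
  have key : ∀ (E : Type) [NormedAddCommGroup E] (F : ℂ → E) (c : ℂ) (U : Set ℂ) (ρ : ℝ),
      ContinuousOn F (resolventSet ℂ T) → IsOpen U → 0 < ρ → ball c ρ ⊆ U →
      volume (spectrum ℂ T ∩ U) = 0 → IntegrableOn (fun z : ℂ => Real.posLog ‖F z‖) U →
      ∃ (r : ℝ) (h : ℝ → ℂ), r < ‖c₁ - c₂‖ / 2 ∧ GoodV (resolventSet ℂ T) F c r h := by
    intro E _ F c U ρ hcF hU hρ hball h0 hI
    have h1 := hHYPV E (resolventSet ℂ T) F U hP hU (by rw [compl_spec]; exact h0) hI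
    have hρ' : 0 < min ρ (‖c₁ - c₂‖ / 2) := lt_min hρ (by positivity)
    have h2 : (∫⁻ z in ball c (min ρ (‖c₁ - c₂‖ / 2)), mv (resolventSet ℂ T) F z) ≠ ⊤ := by
      refine ne_top_of_le_ne_top h1 (lintegral_mono_set ?_)
      exact (ball_subset_ball (min_le_left _ _)).trans hball
    obtain ⟨r, hr0, hr1, hr2⟩ := hCIRC _ (hMVM E (resolventSet ℂ T) F hP hcF) c _ hρ' h2
    obtain ⟨h, hh⟩ := hGOODV E (resolventSet ℂ T) F c r hP hcF hr0 hr2
    exact ⟨r, h, lt_of_lt_of_le hr1 (min_le_right _ _), hh⟩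
  obtain ⟨r₁, h₁, hr₁, hg₁⟩ := key X F₁ c₁ U₁ ρ₁ hcF₁ hU₁ hρ₁ hB₁ h01 hI1
  obtain ⟨r₂, h₂, hr₂, hg₂⟩ := key (X →L[ℂ] ℂ) F₂ c₂ U₂ ρ₂ hcF₂ hU₂ hρ₂ hB₂ h02 hI2
  have hA : IV F₁ c₁ r₁ h₁ ≠ 0 := by
    refine hNZV X (resolventSet ℂ T) (fun z => resolvent T z) x c₁ r₁ h₁ hP hcF₁ ?_ hg₁ hb1
    intro z hz w hw
    have := congrArg (fun L : X →L[ℂ] X => L x) (res_id T hz hw)
    simpa using this
  have hB : IV F₂ c₂ r₂ h₂ ≠ 0 := by
    have := hNZV (X →L[ℂ] ℂ) (resolventSet ℂ T)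
      (fun z => (ContinuousLinearMap.compL ℂ X X ℂ).flip (resolvent T z)) y c₂ r₂ h₂ hP ?_ ?_ ?_ ?_
    · exact this
    · exact hcF₂
    · intro z hz w hw
      have e := res_id T hw hz
      have : y.comp (resolvent T w) - y.comp (resolvent T z) =
          (z - w) • (y.comp (resolvent T z)).comp (resolvent T w) := by
        have e2 : resolvent T w - resolvent T z = (z - w) • (resolvent T z * resolvent T w) := by
          rw [← neg_sub, e, ← neg_smul, neg_sub]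
        have : y.comp (resolvent T w) - y.comp (resolvent T z) =
          y.comp (resolvent T w - resolvent T z) := by
          ext v; simp
        rw [this, e2]
        ext v
        simp
      exact this
    · exact hg₂
    · exact hb2
  refine fin T _ _ hA hB ?_
  intro S hS
  exact hABV X T S x y c₁ c₂ r₁ r₂ h₁ h₂ hS hg₁ hg₂ (by linarith)

end Pool.Agent.W610.HY.Lasm
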