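import Pool.Agent.W610.HY.Stm3
import Pool.Agent.W610.HY.Cor

set_option autoImplicit false

namespace Pool.Agent.W610.HY.Masm

open MeasureTheory Set Metric Filter Topology
open Pool.Agent.W610.HY

theorem hypm (E : Type) [NormedAddCommGroup E] (P : Set ℂ) (F : ℂ → E) (U : Set ℂ)
    (h0 : ∀ᵐ z ∂(volume.restrict U), z ∈ P)
    (hI : IntegrableOn (fun z : ℂ => Real.posLog ‖F z‖) U) :
    (∫⁻ z in U, mv P F z) ≠ ⊤ := by
  have h1 : (∫⁻ z in U, mv P F z) = ∫⁻ z in U, ENNReal.ofReal (Real.posLog ‖F z‖) := by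
    apply lintegral_congr_ae
    filter_upwards [h0] with z hz
    simp [mv, hz]
  rw [h1]
  have h2 := hI.lintegral_lt_top
  exact h2.ne

theorem mvmeas (E : Type) [NormedAddCommGroup E] (P : Set ℂ) (F : ℂ → E) (hP : MeasurableSet P)
    (hF : StronglyMeasurable F) : Measurable (mv P F) := by
  classical
  have : mv P F = fun z => if z ∈ P then ENNReal.ofReal (Real.posLog ‖F z‖) else ⊤ := by
    funext z
    unfold mv
    by_cases hz : z ∈ P <;> simp [hz]
  rw [this]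
  exact Measurable.ite hP
    (ENNReal.measurable_ofReal.comp (Real.continuous_posLog.measurable.comp hF.norm.measurable))
    measurable_const

/-- the adjoint operator as an operator on the dual space -/
noncomputable def adj {X : Type} [NormedAddCommGroup X] [NormedSpace ℂ X] (T : X →L[ℂ] X) :
    (X →L[ℂ] ℂ) →L[ℂ] (X →L[ℂ] ℂ) := (ContinuousLinearMap.compL ℂ X X ℂ).flip T

theorem adj_apply {X : Type} [NormedAddCommGroup X] [NormedSpace ℂ X] (T : X →L[ℂ] X)
    (y : X →L[ℂ] ℂ) : adj T y = y.comp T := rfl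

/-- one side -/
theorem side (hCIRC : CIRC) (hGOODM : GOODM) (hNZM : NZM)
    (E : Type) [NormedAddCommGroup E] [NormedSpace ℂ E] [CompleteSpace E] (T : E →L[ℂ] E)
    (x : E) (c : ℂ) (U : Set ℂ) (f : ℂ → E) (d : ℝ) (hd : 0 < d) (hU : IsOpen U) (hc : c ∈ U)
    (hf : AEStronglyMeasurable f (volume.restrict U))
    (he : ∀ᵐ z ∂(volume.restrict U), z • f z - T (f z) = x)
    (hI : IntegrableOn (fun z : ℂ => Real.posLog ‖f z‖) U)
    (hs : ¬ ∃ (δ : ℝ) (F : ℂ → E), 0 < δ ∧ DifferentiableOn ℂ F (ball c δ) ∧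
      ∀ z ∈ ball c δ, z • F z - T (F z) = x) :
    ∃ (P : Set ℂ) (f' : ℂ → E) (r : ℝ) (h : ℝ → ℂ), StronglyMeasurable f' ∧
      (∀ z ∈ P, z • f' z - T (f' z) = x) ∧ r < d ∧ GoodV P f' c r h ∧ IV f' c r h ≠ 0 := by
  obtain ⟨f', hf', hff'⟩ := hf
  let P : Set ℂ := {z | z • f' z - T (f' z) = x}
  have hPm : MeasurableSet P := by
    have h1 : StronglyMeasurable fun z : ℂ => z • f' z - T (f' z) := by
      apply StronglyMeasurable.sub
      · exact (continuous_id.stronglyMeasurable).smul hf'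
      · exact T.continuous.comp_stronglyMeasurable hf'
    exact h1.measurableSet_eq_fun stronglyMeasurable_const
  have hPae : ∀ᵐ z ∂(volume.restrict U), z ∈ P := by
    filter_upwards [he, hff'] with z hz hz'
    change z • f' z - T (f' z) = x
    rw [← hz']
    exact hz
  have hI' : IntegrableOn (fun z : ℂ => Real.posLog ‖f' z‖) U := by
    refine Integrable.congr hI ?_
    filter_upwards [hff'] with z hz
    rw [hz]
  have h1 := hypm E P f' U hPae hI'
  obtain ⟨ρ, hρ, hball⟩ := Metric.isOpen_iff.mp hU c hc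
  have hρ' : 0 < min ρ d := lt_min hρ hd
  have h2 : (∫⁻ z in ball c (min ρ d), mv P f' z) ≠ ⊤ := by
    refine ne_top_of_le_ne_top h1 (lintegral_mono_set ?_)
    exact (ball_subset_ball (min_le_left _ _)).trans hball
  obtain ⟨r, hr0, hr1, hr2⟩ := hCIRC _ (mvmeas E P f' hPm hf') c _ hρ' h2
  obtain ⟨h, hh⟩ := hGOODM E P f' c r hPm hf' hr0 hr2
  refine ⟨P, f', r, h, hf', fun z hz => hz, lt_of_lt_of_le hr1 (min_le_right _ _), hh, ?_⟩
  intro h0
  exact hs (hNZM E T x P f' c r h hf' (fun z hz => hz) hh h0)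

theorem main (hCIRC : CIRC) (hGOODM : GOODM) (hNZM : NZM) (hABM : ABM) : MLOC := by
  intro X _ _ _ T x y c₁ c₂ U₁ U₂ f g hne hU₁ hU₂ hc₁ hc₂ hf hg hef heg hIf hIg hsf hsg
  have hd : 0 < ‖c₁ - c₂‖ / 2 := by
    have : 0 < ‖c₁ - c₂‖ := norm_pos_iff.mpr (sub_ne_zero.mpr hne)
    positivity
  obtain ⟨P₁, f', r₁, h₁, hf', hP₁, hr₁, hg₁, hA⟩ :=
    side hCIRC hGOODM hNZM X T x c₁ U₁ f _ hd hU₁ hc₁ hf hef hIf hsf
  obtain ⟨P₂, g', r₂, h₂, hg', hP₂, hr₂, hg₂, hB⟩ :=
    side hCIRC hGOODM hNZM (X →L[ℂ] ℂ) (adj T) y c₂ U₂ g _ hd hU₂ hc₂ hg heg hIg hsg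
  refine Lasm.fin T _ _ hA hB ?_
  intro S hS
  exact hABM X T S x y P₁ P₂ f' g' c₁ c₂ r₁ r₂ h₁ h₂ hS hf' hg' hP₁ hP₂ hg₁ hg₂ (by linarith)

/-- the local theorem follows -/
theorem loc (hMLOC : MLOC) (hMEAS : MEAS) : LOC := by
  intro X _ _ _ T x y c₁ c₂ U₁ U₂ hne hU₁ hU₂ hc₁ hc₂ h01 h02 hI1 hI2 hb1 hb2
  have hPae : ∀ U : Set ℂ, IsOpen U → volume (spectrum ℂ T ∩ U) = 0 →
      ∀ᵐ z ∂(volume.restrict U), z ∈ resolventSet ℂ T := by
    intro U hU h0
    rw [ae_restrict_iff' hU.measurableSet]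
    have : ∀ᵐ z ∂(volume : Measure ℂ), z ∉ spectrum ℂ T ∩ U := measure_eq_zero_iff_ae_notMem.mp h0
    filter_upwards [this] with z hz hzU
    by_contra hcon
    exact hz ⟨hcon, hzU⟩
  have hid : ∀ z ∈ resolventSet ℂ T, ∀ v : X, z • resolvent T z v - T (resolvent T z v) = v ∧
      resolvent T z (z • v - T v) = v := by
    intro z hz v
    obtain ⟨u, hu⟩ := hz
    have e1 : resolvent T z = (↑u⁻¹ : X →L[ℂ] X) := by
      unfold resolvent; rw [← hu, Ring.inverse_unit]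
    have e2 : ∀ v : X, (u : X →L[ℂ] X) v = z • v - T v := by
      intro v
      rw [hu, Algebra.algebraMap_eq_smul_one]
      rfl
    rw [e1]
    constructor
    · rw [← e2, ← ContinuousLinearMap.mul_apply, Units.mul_inv]
      rfl
    · rw [← e2, ← ContinuousLinearMap.mul_apply, Units.inv_mul]
      rfl
  refine hMLOC X T x y c₁ c₂ U₁ U₂ (fun z => resolvent T z x) (fun z => y.comp (resolvent T z))
    hne hU₁ hU₂ hc₁ hc₂ ?_ ?_ ?_ ?_ hI1 hI2 ?_ ?_
  · exact ((ContinuousLinearMap.apply ℂ X x).continuous.comp_stronglyMeasurable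
        (hMEAS (X →L[ℂ] X) T)).aestronglyMeasurable
  · exact (((ContinuousLinearMap.compL ℂ X X ℂ) y).continuous.comp_stronglyMeasurable
        (hMEAS (X →L[ℂ] X) T)).aestronglyMeasurable
  · filter_upwards [hPae U₁ hU₁ h01] with z hz
    exact (hid z hz x).1
  · filter_upwards [hPae U₂ hU₂ h02] with z hz
    ext v
    have := congrArg y (hid z hz v).2
    simpa using this
  · rintro ⟨δ, F, hδ, hF, hFe⟩
    have hcont : ContinuousAt F c₁ :=
      (hF.differentiableAt (ball_mem_nhds c₁ hδ)).continuousAt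
    obtain ⟨ε, hε, hbd⟩ := Metric.continuousAt_iff.mp hcont 1 one_pos
    obtain ⟨w, hw, hw1, hw2⟩ := hb1 (‖F c₁‖ + 1) (min δ ε) (lt_min hδ hε)
    have hwδ : w ∈ ball c₁ δ := by
      rw [mem_ball, dist_eq_norm]; exact lt_of_lt_of_le hw1 (min_le_left _ _)
    have e1 : resolvent T w x = F w := by
      have h3 := (hid w hw (F w)).2
      rw [hFe w hwδ] at h3
      exact h3
    have h4 : dist (F w) (F c₁) < 1 := by
      apply hbd
      rw [dist_eq_norm]; exact lt_of_lt_of_le hw1 (min_le_right _ _)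
    rw [dist_eq_norm] at h4
    rw [e1] at hw2
    have h5 : ‖F w‖ ≤ ‖F c₁‖ + ‖F w - F c₁‖ := by
      have := norm_add_le (F c₁) (F w - F c₁)
      simpa using this
    linarith
  · rintro ⟨δ, F, hδ, hF, hFe⟩
    have hcont : ContinuousAt F c₂ :=
      (hF.differentiableAt (ball_mem_nhds c₂ hδ)).continuousAt
    obtain ⟨ε, hε, hbd⟩ := Metric.continuousAt_iff.mp hcont 1 one_pos
    obtain ⟨w, hw, hw1, hw2⟩ := hb2 (‖F c₂‖ + 1) (min δ ε) (lt_min hδ hε)
    have hwδ : w ∈ ball c₂ δ := by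
      rw [mem_ball, dist_eq_norm]; exact lt_of_lt_of_le hw1 (min_le_left _ _)
    have e1 : y.comp (resolvent T w) = F w := by
      ext v
      have h3 := hFe w hwδ
      have h6 := (hid w hw v).1
      have h7 : F w v = F w (w • resolvent T w v - T (resolvent T w v)) := by rw [h6]
      rw [h7, ← h3]
      simp
    have h4 : dist (F w) (F c₂) < 1 := by
      apply hbd
      rw [dist_eq_norm]; exact lt_of_lt_of_le hw1 (min_le_right _ _)
    rw [dist_eq_norm] at h4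
    rw [e1] at hw2
    have h5 : ‖F w‖ ≤ ‖F c₂‖ + ‖F w - F c₂‖ := by
      have := norm_add_le (F c₂) (F w - F c₂)
      simpa using this
    linarith

end Pool.Agent.W610.HY.Masm
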