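import Pool.Agent.W610.HY.Stm

/-!
# Project HY, second round: the local version (one vector and one functional)
-/

set_option autoImplicit false

namespace Pool.Agent.W610.HY

open MeasureTheory Set Metric Filter Topology

/-- `log⁺ ‖F z‖` as an extended number, infinite outside `P` -/
noncomputable def mv {E : Type} [NormedAddCommGroup E] (P : Set ℂ) (F : ℂ → E) (z : ℂ) :
    ENNReal := by
  classical
  exact if z ∈ P then ENNReal.ofReal (Real.posLog ‖F z‖) else ⊤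

/-- `h` (a function of the angle) is a good multiplier for the vector-valued function `F` on the
circle with centre `c` and radius `r` -/
structure GoodV {E : Type} [NormedAddCommGroup E] (P : Set ℂ) (F : ℂ → E) (c : ℂ) (r : ℝ)
    (h : ℝ → ℂ) : Prop where
  pos : 0 < r
  meas : Measurable h
  res : ∀ᵐ θ ∂(volume.restrict (Ioc (0:ℝ) (2 * Real.pi))), circleMap c r θ ∈ P
  le_one : ∀ᵐ θ ∂(volume.restrict (Ioc (0:ℝ) (2 * Real.pi))), ‖h θ‖ ≤ 1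
  bound : ∀ᵐ θ ∂(volume.restrict (Ioc (0:ℝ) (2 * Real.pi))),
    ‖h θ‖ * ‖F (circleMap c r θ)‖ ≤ 1
  ne : (∫ θ in (0:ℝ)..(2 * Real.pi), h θ) ≠ 0
  van : ∀ w : ℂ, r < ‖w - c‖ →
    (∫ θ in (0:ℝ)..(2 * Real.pi), h θ * (circleMap 0 1 θ / (circleMap c r θ - w))) = 0

/-- the integral of `h(θ) e^(iθ) F(c + r e^(iθ))` -/
noncomputable def IV {E : Type} [NormedAddCommGroup E] [NormedSpace ℂ E] (F : ℂ → E) (c : ℂ)
    (r : ℝ) (h : ℝ → ℂ) : E :=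
  ∫ θ in (0:ℝ)..(2 * Real.pi), (h θ * circleMap 0 1 θ) • F (circleMap c r θ)

/-- OUTM: outer functions for measurable data -/
def OUTM : Prop :=
  ∀ m : ℝ → ENNReal, Measurable m →
    (∫⁻ θ in Ioc (0:ℝ) (2 * Real.pi), m θ) ≠ ⊤ →
    ∃ h : ℝ → ℂ, Measurable h ∧
      (∀ᵐ θ ∂(volume.restrict (Ioc (0:ℝ) (2 * Real.pi))),
        m θ ≠ ⊤ ∧ ‖h θ‖ ≤ Real.exp (-(m θ).toReal)) ∧
      (∫ θ in (0:ℝ)..(2 * Real.pi), h θ) ≠ 0 ∧
      ∀ w : ℂ, 1 < ‖w‖ →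
        (∫ θ in (0:ℝ)..(2 * Real.pi), h θ * (circleMap 0 1 θ / (circleMap 0 1 θ - w))) = 0

/-- MVM: measurability of `mv` -/
def MVM : Prop :=
  ∀ (E : Type) [NormedAddCommGroup E] (P : Set ℂ) (F : ℂ → E),
    IsOpen P → ContinuousOn F P → Measurable (mv P F)

/-- GOODV: existence of good multipliers -/
def GOODV : Prop :=
  ∀ (E : Type) [NormedAddCommGroup E] (P : Set ℂ) (F : ℂ → E) (c : ℂ) (r : ℝ),
    IsOpen P → ContinuousOn F P → 0 < r →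
    (∫⁻ θ in Ioc (0:ℝ) (2 * Real.pi), mv P F (circleMap c r θ)) ≠ ⊤ →
    ∃ h : ℝ → ℂ, GoodV P F c r h

/-- HYPV: the hypotheses of the theorem in terms of `mv` -/
def HYPV : Prop :=
  ∀ (E : Type) [NormedAddCommGroup E] (P : Set ℂ) (F : ℂ → E) (U : Set ℂ),
    IsOpen P → IsOpen U → volume (U \ P) = 0 →
    IntegrableOn (fun z : ℂ => Real.posLog ‖F z‖) U →
    (∫⁻ z in U, mv P F z) ≠ ⊤

/-- NZV: the integral does not vanish when the function is unbounded near the centre -/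
def NZV : Prop :=
  ∀ (E : Type) [NormedAddCommGroup E] [NormedSpace ℂ E] [CompleteSpace E] (P : Set ℂ)
    (R : ℂ → E →L[ℂ] E) (e : E) (c : ℂ) (r : ℝ) (h : ℝ → ℂ),
    IsOpen P → ContinuousOn (fun z => R z e) P →
    (∀ z ∈ P, ∀ w ∈ P, R w e - R z e = (z - w) • R w (R z e)) →
    GoodV P (fun z => R z e) c r h →
    (∀ K δ : ℝ, 0 < δ → ∃ w ∈ P, ‖w - c‖ < δ ∧ K < ‖R w e‖) →
    IV (fun z => R z e) c r h ≠ 0

/-- ABV: the two integrals annihilate each other across every operator of the commutant -/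
def ABV : Prop :=
  ∀ (X : Type) [NormedAddCommGroup X] [NormedSpace ℂ X] [CompleteSpace X] (T S : X →L[ℂ] X)
    (x : X) (y : X →L[ℂ] ℂ) (c₁ c₂ : ℂ) (r₁ r₂ : ℝ) (h₁ h₂ : ℝ → ℂ),
    S * T = T * S →
    GoodV (resolventSet ℂ T) (fun z => resolvent T z x) c₁ r₁ h₁ →
    GoodV (resolventSet ℂ T) (fun z => y.comp (resolvent T z)) c₂ r₂ h₂ →
    r₁ + r₂ < ‖c₁ - c₂‖ →
    (IV (fun z => y.comp (resolvent T z)) c₂ r₂ h₂) (S (IV (fun z => resolvent T z x) c₁ r₁ h₁))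
      = 0

/-- LOC: the local theorem -/
def LOC : Prop :=
  ∀ (X : Type) [NormedAddCommGroup X] [NormedSpace ℂ X] [CompleteSpace X] (T : X →L[ℂ] X)
    (x : X) (y : X →L[ℂ] ℂ) (c₁ c₂ : ℂ) (U₁ U₂ : Set ℂ), c₁ ≠ c₂ →
    IsOpen U₁ → IsOpen U₂ → c₁ ∈ U₁ → c₂ ∈ U₂ →
    volume (spectrum ℂ T ∩ U₁) = 0 → volume (spectrum ℂ T ∩ U₂) = 0 →
    IntegrableOn (fun z : ℂ => Real.posLog ‖resolvent T z x‖) U₁ →
    IntegrableOn (fun z : ℂ => Real.posLog ‖y.comp (resolvent T z)‖) U₂ →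
    (∀ K δ : ℝ, 0 < δ → ∃ w ∈ resolventSet ℂ T, ‖w - c₁‖ < δ ∧ K < ‖resolvent T w x‖) →
    (∀ K δ : ℝ, 0 < δ → ∃ w ∈ resolventSet ℂ T, ‖w - c₂‖ < δ ∧ K < ‖y.comp (resolvent T w)‖) →
    ∃ V : Submodule ℂ X, IsClosed (V : Set X) ∧ V ≠ ⊥ ∧ V ≠ ⊤ ∧
      ∀ Q : X →L[ℂ] X, Q * T = T * Q → ∀ v ∈ V, Q v ∈ V

/-- LASM: the assembly of the local theorem -/
def LASM : Prop :=
  GOODV → HYPV → MVM → CIRC → NZV → ABV → LOC

end Pool.Agent.W610.HY
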