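import Pool.Agent.W610.HY.Stm2

/-!
# Project HY, third round: measurable local resolvents
-/

set_option autoImplicit false

namespace Pool.Agent.W610.HY

open MeasureTheory Set Metric Filter Topology

/-- GOODM: existence of good multipliers, measurable version -/
def GOODM : Prop :=
  ∀ (E : Type) [NormedAddCommGroup E] (P : Set ℂ) (F : ℂ → E) (c : ℂ) (r : ℝ),
    MeasurableSet P → StronglyMeasurable F → 0 < r →
    (∫⁻ θ in Ioc (0:ℝ) (2 * Real.pi), mv P F (circleMap c r θ)) ≠ ⊤ →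
    ∃ h : ℝ → ℂ, GoodV P F c r h

/-- NZM: if the integral vanishes, the centre is in the local resolvent set -/
def NZM : Prop :=
  ∀ (E : Type) [NormedAddCommGroup E] [NormedSpace ℂ E] [CompleteSpace E] (T : E →L[ℂ] E)
    (x : E) (P : Set ℂ) (f : ℂ → E) (c : ℂ) (r : ℝ) (h : ℝ → ℂ),
    StronglyMeasurable f → (∀ z ∈ P, z • f z - T (f z) = x) →
    GoodV P f c r h → IV f c r h = 0 →
    ∃ (δ : ℝ) (F : ℂ → E), 0 < δ ∧ DifferentiableOn ℂ F (ball c δ) ∧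
      ∀ z ∈ ball c δ, z • F z - T (F z) = x

/-- ABM: the two integrals annihilate each other across every operator of the commutant -/
def ABM : Prop :=
  ∀ (X : Type) [NormedAddCommGroup X] [NormedSpace ℂ X] [CompleteSpace X] (T S : X →L[ℂ] X)
    (x : X) (y : X →L[ℂ] ℂ) (P₁ P₂ : Set ℂ) (f : ℂ → X) (g : ℂ → (X →L[ℂ] ℂ)) (c₁ c₂ : ℂ)
    (r₁ r₂ : ℝ) (h₁ h₂ : ℝ → ℂ),
    S * T = T * S → StronglyMeasurable f → StronglyMeasurable g →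
    (∀ z ∈ P₁, z • f z - T (f z) = x) →
    (∀ z ∈ P₂, z • g z - (g z).comp T = y) →
    GoodV P₁ f c₁ r₁ h₁ → GoodV P₂ g c₂ r₂ h₂ → r₁ + r₂ < ‖c₁ - c₂‖ →
    (IV g c₂ r₂ h₂) (S (IV f c₁ r₁ h₁)) = 0

/-- MLOC: the theorem for measurable local resolvents -/
def MLOC : Prop :=
  ∀ (X : Type) [NormedAddCommGroup X] [NormedSpace ℂ X] [CompleteSpace X] (T : X →L[ℂ] X)
    (x : X) (y : X →L[ℂ] ℂ) (c₁ c₂ : ℂ) (U₁ U₂ : Set ℂ) (f : ℂ → X) (g : ℂ → (X →L[ℂ] ℂ)),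
    c₁ ≠ c₂ → IsOpen U₁ → IsOpen U₂ → c₁ ∈ U₁ → c₂ ∈ U₂ →
    AEStronglyMeasurable f (volume.restrict U₁) →
    AEStronglyMeasurable g (volume.restrict U₂) →
    (∀ᵐ z ∂(volume.restrict U₁), z • f z - T (f z) = x) →
    (∀ᵐ z ∂(volume.restrict U₂), z • g z - (g z).comp T = y) →
    IntegrableOn (fun z : ℂ => Real.posLog ‖f z‖) U₁ →
    IntegrableOn (fun z : ℂ => Real.posLog ‖g z‖) U₂ →
    (¬ ∃ (δ : ℝ) (F : ℂ → X), 0 < δ ∧ DifferentiableOn ℂ F (ball c₁ δ) ∧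
      ∀ z ∈ ball c₁ δ, z • F z - T (F z) = x) →
    (¬ ∃ (δ : ℝ) (G : ℂ → (X →L[ℂ] ℂ)), 0 < δ ∧ DifferentiableOn ℂ G (ball c₂ δ) ∧
      ∀ z ∈ ball c₂ δ, z • G z - (G z).comp T = y) →
    ∃ V : Submodule ℂ X, IsClosed (V : Set X) ∧ V ≠ ⊥ ∧ V ≠ ⊤ ∧
      ∀ Q : X →L[ℂ] X, Q * T = T * Q → ∀ v ∈ V, Q v ∈ V

end Pool.Agent.W610.HY
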