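import Pool.Agent.W610.HY.Stm3

/-!
# Project HY, fourth round: any point inside the circle instead of the centre
-/

set_option autoImplicit false

namespace Pool.Agent.W610.HY

open MeasureTheory Set Metric Filter Topology

/-- HARN: a Harnack type bound -/
def HARN : Prop :=
  ∀ p : Polynomial ℂ, (p.eval 0).im = 0 → (∀ z : ℂ, ‖z‖ = 1 → 0 ≤ (p.eval z).re) →
    ∀ w : ℂ, ‖w‖ < 1 → ‖p.eval w‖ ≤ 3 / (1 - ‖w‖) * (p.eval 0).re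

/-- MEANI: Cauchy's formula on the unit circle -/
def MEANI : Prop :=
  ∀ F : ℂ → ℂ, Differentiable ℂ F → ∀ w : ℂ, ‖w‖ < 1 →
    (∫ θ in (0:ℝ)..(2 * Real.pi),
      F (circleMap 0 1 θ) * (circleMap 0 1 θ / (circleMap 0 1 θ - w))) = 2 * Real.pi * F w

/-- LIM2: the limit of the partial products on the circle, with nonvanishing Cauchy integral -/
def LIM2 : Prop :=
  ∀ p : ℕ → Polynomial ℂ, (∀ k, ((p k).eval 0).im = 0) →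
    (∀ k (z : ℂ), ‖z‖ = 1 → 0 ≤ ((p k).eval z).re) →
    Summable (fun k => ((p k).eval 0).re) →
    ∃ h : ℝ → ℂ, Measurable h ∧
      (∀ᵐ θ ∂(volume.restrict (Ioc (0:ℝ) (2 * Real.pi))),
        ∀ n, ‖h θ‖ ≤ ‖hh p n (circleMap 0 1 θ)‖) ∧
      (∀ w : ℂ, ‖w‖ < 1 →
        (∫ θ in (0:ℝ)..(2 * Real.pi), h θ * (circleMap 0 1 θ / (circleMap 0 1 θ - w))) ≠ 0) ∧
      ∀ w : ℂ, 1 < ‖w‖ →
        (∫ θ in (0:ℝ)..(2 * Real.pi), h θ * (circleMap 0 1 θ / (circleMap 0 1 θ - w))) = 0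

/-- OUT2: outer functions for measurable data, with nonvanishing Cauchy integral -/
def OUT2 : Prop :=
  ∀ m : ℝ → ENNReal, Measurable m →
    (∫⁻ θ in Ioc (0:ℝ) (2 * Real.pi), m θ) ≠ ⊤ →
    ∃ h : ℝ → ℂ, Measurable h ∧
      (∀ᵐ θ ∂(volume.restrict (Ioc (0:ℝ) (2 * Real.pi))),
        m θ ≠ ⊤ ∧ ‖h θ‖ ≤ Real.exp (-(m θ).toReal)) ∧
      (∀ w : ℂ, ‖w‖ < 1 →
        (∫ θ in (0:ℝ)..(2 * Real.pi), h θ * (circleMap 0 1 θ / (circleMap 0 1 θ - w))) ≠ 0) ∧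
      ∀ w : ℂ, 1 < ‖w‖ →
        (∫ θ in (0:ℝ)..(2 * Real.pi), h θ * (circleMap 0 1 θ / (circleMap 0 1 θ - w))) = 0

/-- good multipliers with nonvanishing Cauchy integral inside the circle -/
def GoodW {E : Type} [NormedAddCommGroup E] (P : Set ℂ) (F : ℂ → E) (c : ℂ) (r : ℝ)
    (h : ℝ → ℂ) : Prop :=
  GoodV P F c r h ∧ ∀ w : ℂ, ‖w - c‖ < r →
    (∫ θ in (0:ℝ)..(2 * Real.pi), h θ * (circleMap 0 1 θ / (circleMap c r θ - w))) ≠ 0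

/-- GOOD2: existence of good multipliers -/
def GOOD2 : Prop :=
  ∀ (E : Type) [NormedAddCommGroup E] (P : Set ℂ) (F : ℂ → E) (c : ℂ) (r : ℝ),
    MeasurableSet P → StronglyMeasurable F → 0 < r →
    (∫⁻ θ in Ioc (0:ℝ) (2 * Real.pi), mv P F (circleMap c r θ)) ≠ ⊤ →
    ∃ h : ℝ → ℂ, GoodW P F c r h

/-- NZ2: if the integral vanishes, every point inside is in the local resolvent set -/
def NZ2 : Prop :=
  ∀ (E : Type) [NormedAddCommGroup E] [NormedSpace ℂ E] [CompleteSpace E] (T : E →L[ℂ] E)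
    (x : E) (P : Set ℂ) (f : ℂ → E) (c : ℂ) (r : ℝ) (h : ℝ → ℂ),
    StronglyMeasurable f → (∀ z ∈ P, z • f z - T (f z) = x) →
    GoodW P f c r h → IV f c r h = 0 → ∀ a : ℂ, ‖a - c‖ < r →
    ∃ (δ : ℝ) (F : ℂ → E), 0 < δ ∧ DifferentiableOn ℂ F (ball a δ) ∧
      ∀ z ∈ ball a δ, z • F z - T (F z) = x

/-- TWOC: the two-circle theorem -/
def TWOC : Prop :=
  ∀ (X : Type) [NormedAddCommGroup X] [NormedSpace ℂ X] [CompleteSpace X] (T : X →L[ℂ] X)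
    (x : X) (y : X →L[ℂ] ℂ) (c₁ c₂ : ℂ) (r₁ r₂ : ℝ) (f : ℂ → X) (g : ℂ → (X →L[ℂ] ℂ))
    (a₁ a₂ : ℂ), r₁ + r₂ < ‖c₁ - c₂‖ → ‖a₁ - c₁‖ < r₁ → ‖a₂ - c₂‖ < r₂ →
    AEStronglyMeasurable (fun θ => f (circleMap c₁ r₁ θ))
      (volume.restrict (Ioc (0:ℝ) (2 * Real.pi))) →
    AEStronglyMeasurable (fun θ => g (circleMap c₂ r₂ θ))
      (volume.restrict (Ioc (0:ℝ) (2 * Real.pi))) →
    (∀ᵐ θ ∂(volume.restrict (Ioc (0:ℝ) (2 * Real.pi))),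
      circleMap c₁ r₁ θ • f (circleMap c₁ r₁ θ) - T (f (circleMap c₁ r₁ θ)) = x) →
    (∀ᵐ θ ∂(volume.restrict (Ioc (0:ℝ) (2 * Real.pi))),
      circleMap c₂ r₂ θ • g (circleMap c₂ r₂ θ) - (g (circleMap c₂ r₂ θ)).comp T = y) →
    IntegrableOn (fun θ => Real.posLog ‖f (circleMap c₁ r₁ θ)‖) (Ioc (0:ℝ) (2 * Real.pi)) →
    IntegrableOn (fun θ => Real.posLog ‖g (circleMap c₂ r₂ θ)‖) (Ioc (0:ℝ) (2 * Real.pi)) →
    (¬ ∃ (δ : ℝ) (F : ℂ → X), 0 < δ ∧ DifferentiableOn ℂ F (ball a₁ δ) ∧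
      ∀ z ∈ ball a₁ δ, z • F z - T (F z) = x) →
    (¬ ∃ (δ : ℝ) (G : ℂ → (X →L[ℂ] ℂ)), 0 < δ ∧ DifferentiableOn ℂ G (ball a₂ δ) ∧
      ∀ z ∈ ball a₂ δ, z • G z - (G z).comp T = y) →
    ∃ V : Submodule ℂ X, IsClosed (V : Set X) ∧ V ≠ ⊥ ∧ V ≠ ⊤ ∧
      ∀ Q : X →L[ℂ] X, Q * T = T * Q → ∀ v ∈ V, Q v ∈ V

end Pool.Agent.W610.HY
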