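import Pool.Agent.W610.HY.Stm4
import Pool.Agent.W610.HY.Masm
import Pool.Agent.W585.HY.OUTM

set_option autoImplicit false

namespace Pool.Agent.W610.HY.Two

open MeasureTheory Set Metric Filter Topology
open Pool.Agent.W610.HY
open Pool.Agent.W585.HY.OUTM (tt measurable_tt tt_c)

/-- one side of the two-circle theorem -/
theorem side (hGOOD2 : GOOD2) (hNZ2 : NZ2)
    (E : Type) [NormedAddCommGroup E] [NormedSpace ℂ E] [CompleteSpace E] (T : E →L[ℂ] E)
    (x : E) (c : ℂ) (r : ℝ) (f : ℂ → E) (a : ℂ) (ha : ‖a - c‖ < r)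
    (hf : AEStronglyMeasurable (fun θ => f (circleMap c r θ))
      (volume.restrict (Ioc (0:ℝ) (2 * Real.pi))))
    (he : ∀ᵐ θ ∂(volume.restrict (Ioc (0:ℝ) (2 * Real.pi))),
      circleMap c r θ • f (circleMap c r θ) - T (f (circleMap c r θ)) = x)
    (hI : IntegrableOn (fun θ => Real.posLog ‖f (circleMap c r θ)‖) (Ioc (0:ℝ) (2 * Real.pi)))
    (hs : ¬ ∃ (δ : ℝ) (F : ℂ → E), 0 < δ ∧ DifferentiableOn ℂ F (ball a δ) ∧
      ∀ z ∈ ball a δ, z • F z - T (F z) = x) :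
    ∃ (P : Set ℂ) (f' : ℂ → E) (h : ℝ → ℂ), StronglyMeasurable f' ∧
      (∀ z ∈ P, z • f' z - T (f' z) = x) ∧ GoodV P f' c r h ∧ IV f' c r h ≠ 0 := by
  have hr : 0 < r := lt_of_le_of_lt (norm_nonneg _) ha
  obtain ⟨F', hF', hFF'⟩ := hf
  let f' : ℂ → E := fun z => F' (tt ((z - c) / r))
  have hf' : StronglyMeasurable f' := by
    apply hF'.comp_measurable
    apply measurable_tt.comp
    exact (measurable_id.sub_const c).div_const (r : ℂ)
  have hval : ∀ θ ∈ Ioc (0:ℝ) (2 * Real.pi), f' (circleMap c r θ) = F' θ := by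
    intro θ hθ
    have h1 : (circleMap c r θ - c) / r = circleMap 0 1 θ := by
      have hr' : (r : ℂ) ≠ 0 := by exact_mod_cast hr.ne'
      simp only [circleMap, Complex.ofReal_one, zero_add, one_mul, add_sub_cancel_left]
      field_simp
    change F' (tt ((circleMap c r θ - c) / r)) = F' θ
    rw [h1, tt_c hθ]
  have hmem : ∀ᵐ θ ∂(volume.restrict (Ioc (0:ℝ) (2 * Real.pi))), θ ∈ Ioc (0:ℝ) (2 * Real.pi) :=
    ae_restrict_mem measurableSet_Ioc
  have hff' : ∀ᵐ θ ∂(volume.restrict (Ioc (0:ℝ) (2 * Real.pi))),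
      f' (circleMap c r θ) = f (circleMap c r θ) := by
    filter_upwards [hmem, hFF'] with θ h1 h2
    rw [hval θ h1, h2]
  let P : Set ℂ := {z | z • f' z - T (f' z) = x}
  have hPm : MeasurableSet P := by
    have h1 : StronglyMeasurable fun z : ℂ => z • f' z - T (f' z) := by
      apply StronglyMeasurable.sub
      · exact (continuous_id.stronglyMeasurable).smul hf'
      · exact T.continuous.comp_stronglyMeasurable hf'
    exact h1.measurableSet_eq_fun stronglyMeasurable_const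
  have hPae : ∀ᵐ θ ∂(volume.restrict (Ioc (0:ℝ) (2 * Real.pi))), circleMap c r θ ∈ P := by
    filter_upwards [he, hff'] with θ hz hz'
    change circleMap c r θ • f' (circleMap c r θ) - T (f' (circleMap c r θ)) = x
    rw [hz']
    exact hz
  have hI' : IntegrableOn (fun θ => Real.posLog ‖f' (circleMap c r θ)‖)
      (Ioc (0:ℝ) (2 * Real.pi)) := by
    refine Integrable.congr hI ?_
    filter_upwards [hff'] with θ hθ
    rw [hθ]
  have h1 : (∫⁻ θ in Ioc (0:ℝ) (2 * Real.pi), mv P f' (circleMap c r θ)) ≠ ⊤ := by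
    have h2 : (∫⁻ θ in Ioc (0:ℝ) (2 * Real.pi), mv P f' (circleMap c r θ)) =
        ∫⁻ θ in Ioc (0:ℝ) (2 * Real.pi), ENNReal.ofReal (Real.posLog ‖f' (circleMap c r θ)‖) := by
      apply lintegral_congr_ae
      filter_upwards [hPae] with θ hθ
      simp [mv, hθ]
    rw [h2]
    exact hI'.lintegral_lt_top.ne
  obtain ⟨h, hh⟩ := hGOOD2 E P f' c r hPm hf' hr h1
  refine ⟨P, f', h, hf', fun z hz => hz, hh.1, ?_⟩
  intro h0
  exact hs (hNZ2 E T x P f' c r h hf' (fun z hz => hz) hh h0 a ha)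

/-- the two-circle theorem -/
theorem main (hGOOD2 : GOOD2) (hNZ2 : NZ2) (hABM : ABM) : TWOC := by
  intro X _ _ _ T x y c₁ c₂ r₁ r₂ f g a₁ a₂ hd ha₁ ha₂ hf hg hef heg hIf hIg hsf hsg
  obtain ⟨P₁, f', h₁, hf', hP₁, hg₁, hA⟩ :=
    side hGOOD2 hNZ2 X T x c₁ r₁ f a₁ ha₁ hf hef hIf hsf
  obtain ⟨P₂, g', h₂, hg', hP₂, hg₂, hB⟩ :=
    side hGOOD2 hNZ2 (X →L[ℂ] ℂ) (Masm.adj T) y c₂ r₂ g a₂ ha₂ hg heg hIg hsg
  refine Lasm.fin T _ _ hA hB ?_
  intro S hS
  exact hABM X T S x y P₁ P₂ f' g' c₁ c₂ r₁ r₂ h₁ h₂ hS hf' hg' hP₁ hP₂ hg₁ hg₂ hd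

/-- choice of a radius -/
theorem radius (hCIRC : CIRC)
    (E : Type) [NormedAddCommGroup E] [NormedSpace ℂ E] (T : E →L[ℂ] E)
    (x : E) (c : ℂ) (U : Set ℂ) (f : ℂ → E) (d : ℝ) (hd : 0 < d) (hU : IsOpen U) (hc : c ∈ U)
    (hf : AEStronglyMeasurable f (volume.restrict U))
    (he : ∀ᵐ z ∂(volume.restrict U), z • f z - T (f z) = x)
    (hI : IntegrableOn (fun z : ℂ => Real.posLog ‖f z‖) U) :
    ∃ (r : ℝ) (f' : ℂ → E), 0 < r ∧ r < d ∧ StronglyMeasurable f' ∧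
      (∀ᵐ θ ∂(volume.restrict (Ioc (0:ℝ) (2 * Real.pi))),
        circleMap c r θ • f' (circleMap c r θ) - T (f' (circleMap c r θ)) = x) ∧
      IntegrableOn (fun θ => Real.posLog ‖f' (circleMap c r θ)‖) (Ioc (0:ℝ) (2 * Real.pi)) := by
  obtain ⟨f', hf', hff'⟩ := hf
  let P : Set ℂ := {z | z • f' z - T (f' z) = x}
  have hPm : MeasurableSet P := by
    have h1 : StronglyMeasurable fun z : ℂ => z • f' z - T (f' z) := by
      apply StronglyMeasurable.sub
      · exact (continuous_id.stronglyMeasurable).smul hf'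
      · exact T.continuous.comp_stronglyMeasurable hf'
    exact h1.measurableSet_eq_fun stronglyMeasurable_const
  have hPae : ∀ᵐ z ∂(volume.restrict U), z ∈ P := by
    filter_upwards [he, hff'] with z hz hz'
    change z • f' z - T (f' z) = x
    rw [← hz']
    exact hz
  have hI' : IntegrableOn (fun z : ℂ => Real.posLog ‖f' z‖) U := by
    refine Integrable.congr hI ?_
    filter_upwards [hff'] with z hz
    rw [hz]
  have h1 := Masm.hypm E P f' U hPae hI'
  obtain ⟨ρ, hρ, hball⟩ := Metric.isOpen_iff.mp hU c hc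
  have hρ' : 0 < min ρ d := lt_min hρ hd
  have h2 : (∫⁻ z in ball c (min ρ d), mv P f' z) ≠ ⊤ := by
    refine ne_top_of_le_ne_top h1 (lintegral_mono_set ?_)
    exact (ball_subset_ball (min_le_left _ _)).trans hball
  have hmeas := Masm.mvmeas E P f' hPm hf'
  obtain ⟨r, hr0, hr1, hr2⟩ := hCIRC _ hmeas c _ hρ' h2
  have hcm : Measurable (fun θ : ℝ => circleMap c r θ) := (continuous_circleMap c r).measurable
  have hlt : ∀ᵐ θ ∂(volume.restrict (Ioc (0:ℝ) (2 * Real.pi))), mv P f' (circleMap c r θ) < ⊤ :=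
    ae_lt_top (hmeas.comp hcm) hr2
  have hPθ : ∀ᵐ θ ∂(volume.restrict (Ioc (0:ℝ) (2 * Real.pi))), circleMap c r θ ∈ P := by
    filter_upwards [hlt] with θ hθ
    by_contra hcon
    simp [mv, hcon] at hθ
  refine ⟨r, f', hr0, lt_of_lt_of_le hr1 (min_le_right _ _), hf', ?_, ?_⟩
  · filter_upwards [hPθ] with θ hθ
    exact hθ
  · refine ⟨?_, ?_⟩
    · exact (Real.continuous_posLog.measurable.comp
        (hf'.comp_measurable hcm).norm.measurable).aestronglyMeasurable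
    · rw [hasFiniteIntegral_iff_norm]
      refine lt_of_le_of_lt (le_of_eq ?_) (lt_top_iff_ne_top.mpr hr2)
      apply lintegral_congr_ae
      filter_upwards [hPθ] with θ hθ
      rw [Real.norm_eq_abs, abs_of_nonneg Real.posLog_nonneg]
      simp [mv, hθ]

/-- the area version follows from the two-circle theorem -/
theorem area (hCIRC : CIRC) (hTWOC : TWOC) : MLOC := by
  intro X _ _ _ T x y c₁ c₂ U₁ U₂ f g hne hU₁ hU₂ hc₁ hc₂ hf hg hef heg hIf hIg hsf hsg
  have hd : 0 < ‖c₁ - c₂‖ / 2 := by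
    have : 0 < ‖c₁ - c₂‖ := norm_pos_iff.mpr (sub_ne_zero.mpr hne)
    positivity
  obtain ⟨r₁, f', hr₁, hr₁', hf', hef', hIf'⟩ :=
    radius hCIRC X T x c₁ U₁ f _ hd hU₁ hc₁ hf hef hIf
  obtain ⟨r₂, g', hr₂, hr₂', hg', heg', hIg'⟩ :=
    radius hCIRC (X →L[ℂ] ℂ) (Masm.adj T) y c₂ U₂ g _ hd hU₂ hc₂ hg heg hIg
  refine hTWOC X T x y c₁ c₂ r₁ r₂ f' g' c₁ c₂ (by linarith) (by simpa using hr₁)
    (by simpa using hr₂) ?_ ?_ hef' heg' hIf' hIg' hsf hsg
  · exact (hf'.comp_measurable (continuous_circleMap c₁ r₁).measurable).aestronglyMeasurable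
  · exact (hg'.comp_measurable (continuous_circleMap c₂ r₂).measurable).aestronglyMeasurable

end Pool.Agent.W610.HY.Two
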